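import Pool.Agent.H30.GMC.StT

/-!
Module XIDL: the homogeneous ideal of `ℙ(1,1,1,2)`.
-/

open AlgebraicGeometry CategoryTheory FCB MvPolynomial
open Pool.Agent.H22.GMC (Coord)

namespace GMC

namespace XIDL

theorem mon_hom (a : Coord 2) : IsWeightedHomogeneous wts (mon a) 2 := by
  rcases a with _ | ⟨i, j⟩
  · exact isWeightedHomogeneous_X ℂ wts 3
  · have h1 : ∀ k : Fin 3, wts k.castSucc = 1 := by decide
    have h2 := (isWeightedHomogeneous_X ℂ wts i.castSucc).mul
      (isWeightedHomogeneous_X ℂ wts j.castSucc)
    rw [h1, h1] at h2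
    exact h2

theorem mon_ne (a : Coord 2) : mon a ≠ 0 := by
  rcases a with _ | ⟨i, j⟩
  · exact X_ne_zero _
  · exact mul_ne_zero (X_ne_zero _) (X_ne_zero _)

theorem rho_Q (a : Coord 2) : rho (Q a) = mon a := by
  rw [rho, Q, aeval_X, Equiv.apply_symm_apply]

theorem Q_mem (a : Coord 2) : Q a ∈ grd 9 1 := isHomogeneous_X ℂ _

theorem rho_mono (a : Fin 10 →₀ ℕ) (s : ℂ) :
    IsWeightedHomogeneous wts (rho (monomial a s)) (2 * a.degree) := by
  classical
  rw [rho, aeval_monomial]
  have h1 : IsWeightedHomogeneous wts (a.prod fun k n => mon (eI k) ^ n)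
      (∑ k ∈ a.support, a k • 2) :=
    IsWeightedHomogeneous.prod _ _ _ fun k _ => (mon_hom (eI k)).pow (a k)
  have h2 : ∑ k ∈ a.support, a k • 2 = 2 * a.degree := by
    rw [Finsupp.degree_apply, Finset.mul_sum]
    exact Finset.sum_congr rfl fun k _ => by rw [smul_eq_mul, mul_comm]
  rw [h2] at h1
  exact h1.C_mul s

theorem rho_hom (d : ℕ) (p : MvPolynomial (Fin 10) ℂ) (hp : p ∈ grd 9 d) :
    IsWeightedHomogeneous wts (rho p) (2 * d) := by
  rw [p.as_sum, map_sum]
  refine IsWeightedHomogeneous.sum _ _ _ fun a ha => ?_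
  have hd : a.degree = d := by
    have h1 : p.IsHomogeneous d := hp
    have h2 := h1 (mem_support_iff.1 ha)
    have h3 : (Finsupp.weight 1) a = a.degree := by
      rw [Finsupp.degree_eq_weight_one]
      rfl
    rwa [h3] at h2
  rw [← hd]
  exact rho_mono a _

theorem surj_mono : ∀ (d : ℕ) (m : Fin 4 →₀ ℕ), Finsupp.weight wts m = 2 * d →
    ∃ p ∈ grd 9 d, rho p = monomial m 1
  | 0, m, hm => by
    refine ⟨1, isHomogeneous_one _ _, ?_⟩
    have h0 : m = 0 := by
      rw [mul_zero] at hm
      rw [Finsupp.weight_apply, Finsupp.sum_fintype _ _ (fun i => by simp)] at hm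
      simp only [Fin.sum_univ_four, smul_eq_mul] at hm
      have : wts 0 = 1 := rfl
      have : wts 1 = 1 := rfl
      have : wts 2 = 1 := rfl
      have : wts 3 = 2 := rfl
      ext i
      fin_cases i <;> simp_all
    rw [h0, map_one]
    rfl
  | d + 1, m, hm => by
    have key : ∃ (a : Coord 2) (e m' : Fin 4 →₀ ℕ), mon a = monomial e 1 ∧
        Finsupp.weight wts e = 2 ∧ m = e + m' := by
      have hw : Finsupp.weight wts m = m 0 + m 1 + m 2 + 2 * m 3 := by
        rw [Finsupp.weight_apply, Finsupp.sum_fintype _ _ (fun i => by simp)]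
        simp only [Fin.sum_univ_four, smul_eq_mul]
        have h0 : wts 0 = 1 := rfl
        have h1 : wts 1 = 1 := rfl
        have h2 : wts 2 = 1 := rfl
        have h3 : wts 3 = 2 := rfl
        rw [h0, h1, h2, h3]
        ring
      rw [hw] at hm
      have ex : ∀ u : Fin 4 →₀ ℕ, 0 < u 0 + u 1 + u 2 → ∃ (i : Fin 3) (u' : Fin 4 →₀ ℕ),
          u = Finsupp.single i.castSucc 1 + u' := by
        intro u hu
        have h1 : ∃ i : Fin 3, 1 ≤ u i.castSucc := by
          by_contra hne
          push Not at hne
          have e0 := hne 0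
          have e1 := hne 1
          have e2 := hne 2
          change u 0 < 1 at e0
          change u 1 < 1 at e1
          change u 2 < 1 at e2
          omega
        obtain ⟨i, hi⟩ := h1
        refine ⟨i, u - Finsupp.single i.castSucc 1, ?_⟩
        rw [add_tsub_cancel_of_le]
        rwa [Finsupp.single_le_iff]
      by_cases h3 : 1 ≤ m 3
      · refine ⟨none, Finsupp.single 3 1, m - Finsupp.single 3 1, rfl, ?_, ?_⟩
        · rw [Finsupp.weight_single]
          rfl
        · rw [add_tsub_cancel_of_le]
          rwa [Finsupp.single_le_iff]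
      · obtain ⟨i, u, hu⟩ := ex m (by omega)
        have hu3 : 0 < u 0 + u 1 + u 2 := by
          have e0 := DFunLike.congr_fun hu 0
          have e1 := DFunLike.congr_fun hu 1
          have e2 := DFunLike.congr_fun hu 2
          rw [Finsupp.add_apply, Finsupp.single_apply] at e0 e1 e2
          have h4 : ∀ k : Fin 4, (if i.castSucc = k then 1 else 0) ≤ 1 := fun k => by
            split_ifs <;> simp
          have h5 : (if i.castSucc = (0 : Fin 4) then 1 else 0) +
              (if i.castSucc = (1 : Fin 4) then 1 else 0) +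
              (if i.castSucc = (2 : Fin 4) then 1 else 0) = 1 := by
            clear hu e0 e1 e2 h4 h3
            revert i
            decide
          omega
        obtain ⟨j, u', hu'⟩ := ex u hu3
        refine ⟨some (i, j), Finsupp.single i.castSucc 1 + Finsupp.single j.castSucc 1, u', ?_, ?_,
          ?_⟩
        · change X i.castSucc * X j.castSucc = _
          rw [X, X, monomial_mul, mul_one]
        · have h1 : ∀ k : Fin 3, wts k.castSucc = 1 := by decide
          rw [map_add, Finsupp.weight_single, Finsupp.weight_single, h1, h1]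
          rfl
        · rw [hu, hu', add_assoc]
    obtain ⟨a, e, m', ha, he, rfl⟩ := key
    rw [map_add, he] at hm
    obtain ⟨p, hp, hr⟩ := surj_mono d m' (by omega)
    refine ⟨Q a * p, ?_, ?_⟩
    · have h1 := IsHomogeneous.mul (Q_mem a) (show p.IsHomogeneous d from hp)
      have h2 : 1 + d = d + 1 := add_comm _ _
      rw [h2] at h1
      exact h1
    · rw [map_mul, rho_Q, ha, hr, monomial_mul, mul_one]

theorem surj (d : ℕ) (r : MvPolynomial (Fin 4) ℂ) (hr : IsWeightedHomogeneous wts r (2 * d)) :
    ∃ p ∈ grd 9 d, rho p = r := by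
  have h1 : ∀ m ∈ r.support, ∃ p ∈ grd 9 d, rho p = monomial m (coeff m r) := by
    intro m hm
    obtain ⟨p, hp, h2⟩ := surj_mono d m (hr (mem_support_iff.1 hm))
    refine ⟨C (coeff m r) * p, ?_, ?_⟩
    · have h3 := (isHomogeneous_C (Fin 10) (coeff m r)).mul (show p.IsHomogeneous d from hp)
      rw [zero_add] at h3
      exact h3
    · have : rho (C (coeff m r)) = C (coeff m r) := rho.commutes _
      rw [map_mul, h2, this, C_mul_monomial, mul_one]
  choose! q hq1 hq2 using h1
  refine ⟨∑ m ∈ r.support, q m, Submodule.sum_mem _ hq1, ?_⟩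
  rw [map_sum]
  conv_rhs => rw [r.as_sum]
  exact Finset.sum_congr rfl hq2

end XIDL

open XIDL in
theorem xidl_thm : S_XIDL := by
  refine ⟨RingHom.ker_isPrime _, ?_, ?_, rho_hom, surj⟩
  · intro p hp d
    have h0 : rho p = 0 := hp
    change rho (homogeneousComponent d p) = 0
    have h1 : rho p = ∑ i ∈ Finset.range (p.totalDegree + 1), rho (homogeneousComponent i p) := by
      rw [← map_sum, sum_homogeneousComponent]
    have h2 := congrArg (weightedHomogeneousComponent wts (2 * d)) h1
    rw [h0, map_zero, map_sum] at h2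
    have h3 : ∀ i, weightedHomogeneousComponent wts (2 * d) (rho (homogeneousComponent i p)) =
        if i = d then rho (homogeneousComponent d p) else 0 := by
      intro i
      have h4 := rho_hom i _ (homogeneousComponent_isHomogeneous i p)
      split_ifs with hi
      · subst hi
        exact h4.weightedHomogeneousComponent_same
      · exact h4.weightedHomogeneousComponent_ne _ (by omega)
    rw [Finset.sum_congr rfl fun i _ => h3 i, Finset.sum_ite_eq'] at h2
    split_ifs at h2 with hd
    · exact h2.symm
    · rw [homogeneousComponent_eq_zero, map_zero]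
      rw [Finset.mem_range] at hd
      omega
  · refine ⟨0, fun h => ?_⟩
    have h1 : rho (X 0) = 0 := h
    rw [rho, aeval_X] at h1
    exact mon_ne _ h1

end GMC
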