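import Pool.Agent.H30.GMC.StT

/-!
Module XNOR: `ℙ(1,1,1,2)` is normal.
-/

open AlgebraicGeometry CategoryTheory FCB MvPolynomial
open Pool.Agent.H22.GMC (Coord)

namespace GMC

namespace XNOR

section alg

variable {A F : Type} [CommRing A] [Field F] [Algebra A F]

/-- a power of `q` clears the denominators of `z` -/
def TT (q : A) (z : F) : Prop := ∃ (k : ℕ) (G : A), z * algebraMap A F q ^ k = algebraMap A F G

theorem TT.mono {q : A} {z : F} {k : ℕ} {G : A} (h : z * algebraMap A F q ^ k = algebraMap A F G)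
    {l : ℕ} (hl : k ≤ l) : z * algebraMap A F q ^ l ∈ Set.range (algebraMap A F) := by
  obtain ⟨m, rfl⟩ := Nat.exists_eq_add_of_le hl
  refine ⟨G * q ^ m, ?_⟩
  rw [map_mul, map_pow, ← h, pow_add, mul_assoc]

theorem TT.mul {q : A} {z w : F} (hz : TT q z) (hw : TT q w) : TT q (z * w) := by
  obtain ⟨k, G, hG⟩ := hz
  obtain ⟨l, H, hH⟩ := hw
  refine ⟨k + l, G * H, ?_⟩
  rw [map_mul, ← hG, ← hH, pow_add]
  ring

theorem TT.one (q : A) : TT q (1 : F) := ⟨0, 1, by rw [pow_zero, mul_one, map_one]⟩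

theorem TT.prod {q : A} {ι : Type} (s : Finset ι) (z : ι → F) (h : ∀ i ∈ s, TT q (z i)) :
    TT q (∏ i ∈ s, z i) := by
  classical
  induction s using Finset.induction_on with
  | empty => rw [Finset.prod_empty]; exact TT.one q
  | insert a s ha ih =>
    rw [Finset.prod_insert ha]
    exact (h a (Finset.mem_insert_self a s)).mul
      (ih fun i hi => h i (Finset.mem_insert_of_mem hi))

/-- the integral closure of a localisation -/
theorem key [IsDomain A] [IsIntegrallyClosed A] [IsFractionRing A F] {R K : Type} [CommRing R] [Field K]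
    [Algebra R K] (θ : K →+* F) (q : A) (U : K → Prop) (hU1 : U 1)
    (hU : ∀ a b, U a → U b → U (a * b))
    (hS : ∀ r : R, ∃ b : K, U b ∧ TT q (θ b) ∧ TT q (θ (b * algebraMap R K r))) (f : K)
    (hf : IsIntegral R f) : ∃ b : K, U b ∧ TT q (θ b) ∧ TT q (θ (b * f)) := by
  classical
  obtain ⟨p, hp, hpf⟩ := hf
  have hSi : ∀ i : ℕ, ∃ b : K, U b ∧ TT q (θ b) ∧ TT q (θ (b * algebraMap R K (p.coeff i))) :=
    fun i => hS (p.coeff i)
  choose b hb1 hb2 hb3 using hSi
  set n := p.natDegree with hn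
  set B : K := ∏ i ∈ Finset.range n, b i with hB
  have hUB : U B := by
    rw [hB]
    generalize Finset.range n = s
    induction s using Finset.induction_on with
    | empty => rw [Finset.prod_empty]; exact hU1
    | insert a s ha ih => rw [Finset.prod_insert ha]; exact hU _ _ (hb1 a) ih
  have hTB : TT q (θ B) := by
    rw [hB, map_prod]
    exact TT.prod _ _ fun i _ => hb2 i
  have hTp : ∀ i < n, TT q (θ (B * algebraMap R K (p.coeff i))) := by
    intro i hi
    rw [hB, ← Finset.mul_prod_erase _ _ (Finset.mem_range.2 hi)]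
    have e1 : b i * (∏ x ∈ (Finset.range n).erase i, b x) * algebraMap R K (p.coeff i) =
        b i * algebraMap R K (p.coeff i) * ∏ x ∈ (Finset.range n).erase i, b x := by ring
    rw [e1, map_mul, map_prod]
    exact (hb3 i).mul (TT.prod _ _ fun j _ => hb2 j)
  obtain ⟨kB, GB, hGB⟩ := hTB
  choose! kp Gp hGp using hTp
  set N : ℕ := kB + ∑ i ∈ Finset.range n, kp i with hN
  have hNB : kB ≤ N := by omega
  have hNp : ∀ i < n, kp i ≤ N := by
    intro i hi
    have := Finset.single_le_sum (f := kp) (s := Finset.range n) (fun j _ => Nat.zero_le _)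
      (Finset.mem_range.2 hi)
    omega
  set s : F := θ B * algebraMap A F q ^ N with hs
  have hs1 : s ∈ Set.range (algebraMap A F) := TT.mono hGB hNB
  set P : Polynomial F := p.map (θ.comp (algebraMap R K)) with hP
  have hPn : P.natDegree = n := hp.natDegree_map _
  have hPm : P.Monic := hp.map _
  have hlift : P.scaleRoots s ∈ Polynomial.lifts (algebraMap A F) := by
    rw [Polynomial.lifts_iff_coeff_lifts]
    intro i
    rw [Polynomial.coeff_scaleRoots, hPn]
    rcases lt_trichotomy i n with hi | hi | hi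
    · have e1 : P.coeff i * s ^ (n - i) = (θ (B * algebraMap R K (p.coeff i)) *
          algebraMap A F q ^ N) * s ^ (n - i - 1) := by
        have e2 : s ^ (n - i) = s * s ^ (n - i - 1) := by
          rw [← pow_succ']
          congr 1
          omega
        rw [e2, hP, Polynomial.coeff_map, map_mul, hs]
        simp only [RingHom.comp_apply]
        ring
      rw [e1]
      obtain ⟨x, hx⟩ := TT.mono (hGp i hi) (hNp i hi)
      obtain ⟨y, hy⟩ := hs1
      exact ⟨x * y ^ (n - i - 1), by rw [map_mul, map_pow, hx, hy]⟩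
    · subst hi
      have e1 : P.coeff n = 1 := by
        rw [← hPn]
        exact hPm
      exact ⟨1, by rw [e1, Nat.sub_self, pow_zero, mul_one, map_one]⟩
    · rw [Polynomial.coeff_eq_zero_of_natDegree_lt (by rw [hPn]; exact hi), zero_mul]
      exact ⟨0, map_zero _⟩
  obtain ⟨Q, hQ, -, hQm⟩ := Polynomial.lifts_and_natDegree_eq_and_monic hlift
    ((Polynomial.monic_scaleRoots_iff s).2 hPm)
  have hroot : Polynomial.eval₂ (algebraMap A F) (s * θ f) Q = 0 := by
    rw [← Polynomial.eval_map, hQ]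
    have h1 := Polynomial.scaleRoots_eval₂_mul (p := P) (RingHom.id F) (θ f) s
    rw [RingHom.id_apply, Polynomial.eval₂_id] at h1
    rw [h1, Polynomial.eval₂_id, hP, Polynomial.eval_map]
    have h2 : Polynomial.eval₂ (θ.comp (algebraMap R K)) (θ f) p = 0 := by
      rw [← Polynomial.hom_eval₂, hpf, map_zero]
    rw [h2, mul_zero]
  have hint : IsIntegral A (s * θ f) := ⟨Q, hQm, hroot⟩
  obtain ⟨G, hG⟩ := IsIntegrallyClosed.isIntegral_iff.1 hint
  refine ⟨B, hUB, ⟨kB, GB, hGB⟩, ⟨N, G, ?_⟩⟩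
  rw [hG, map_mul, hs]
  ring

end alg

/-- a factor of a weighted homogeneous polynomial -/
theorem wh_of_mul {w : Fin 4 → ℕ} {G H : MvPolynomial (Fin 4) ℂ} {g h : ℕ} (hH0 : H ≠ 0)
    (hH : IsWeightedHomogeneous w H h) (hGH : IsWeightedHomogeneous w (G * H) (g + h)) :
    IsWeightedHomogeneous w G g := by
  classical
  let _ : GradedAlgebra (weightedHomogeneousSubmodule ℂ w) := weightedGradedAlgebra ℂ w
  have key : ∀ m, weightedHomogeneousComponent w (m + h) (G * H) =
      weightedHomogeneousComponent w m G * H := by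
    intro m
    have h1 := DirectSum.coe_decompose_mul_of_right_mem (weightedHomogeneousSubmodule ℂ w)
      (a := G) (b := H) (i := h) (m + h) hH
    rw [if_pos (Nat.le_add_left h m), Nat.add_sub_cancel] at h1
    have e1 := weightedDecomposition.decompose'_apply ℂ w (G * H) (m + h)
    have e2 := weightedDecomposition.decompose'_apply ℂ w G m
    rw [← e1, ← e2]
    exact h1
  have h0 : ∀ m, m ≠ g → weightedHomogeneousComponent w m G = 0 := by
    intro m hm
    have h1 := key m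
    rw [hGH.weightedHomogeneousComponent_ne (m + h) (by omega)] at h1
    exact (mul_eq_zero.1 h1.symm).resolve_right hH0
  have hG : G = weightedHomogeneousComponent w g G := by
    conv_lhs => rw [← sum_weightedHomogeneousComponent w G]
    rw [finsum_eq_single _ g h0]
  rw [hG]
  exact weightedHomogeneousComponent_isWeightedHomogeneous g G

theorem Qc_mem (q : Fin 4) : Qc q ∈ grd 9 1 := by
  fin_cases q <;> exact isHomogeneous_X ℂ _

theorem Qc_pow_mem (q : Fin 4) (d : ℕ) : Qc q ^ d ∈ grd 9 d := by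
  have h1 := IsHomogeneous.pow (show (Qc q).IsHomogeneous 1 from Qc_mem q) d
  rw [one_mul] at h1
  exact h1

theorem rho_Q (a : Coord 2) : rho (Q a) = mon a := by
  rw [rho, Q, aeval_X, Equiv.apply_symm_apply]

theorem rho_Qc_ne (q : Fin 4) : rho (Qc q) ≠ 0 := by
  have h1 : ∀ a, mon a ≠ 0 := by
    intro a
    rcases a with _ | ⟨i, j⟩
    · exact X_ne_zero _
    · exact mul_ne_zero (X_ne_zero _) (X_ne_zero _)
  fin_cases q
  · change rho (Q _) ≠ 0
    rw [rho_Q]; exact h1 _
  · change rho (Q _) ≠ 0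
    rw [rho_Q]; exact h1 _
  · change rho (Q _) ≠ 0
    rw [rho_Q]; exact h1 _
  · change rho (Q _) ≠ 0
    rw [rho_Q]; exact h1 _

theorem regAt_generic {X : Scheme.{0}} [IsIntegral X] (f : X.functionField) :
    RegAt (genericPoint X) f := by
  refine ⟨f, ?_⟩
  change (X.presheaf.stalkSpecializes _).hom f = f
  rw [TopCat.Presheaf.stalkSpecializes_refl]
  rfl

end XNOR

open XNOR in
theorem xnor_thm (hPSB : S_PSB) (hRATA : S_RATA) (hRLOC : S_RLOC) (hRATB : S_RATB)
    (hRGEN : S_RGEN) (hXIDL : S_XIDL) (hXCOV : S_XCOV) (hXTHE : S_XTHE) : S_XNOR := by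
  intro M x
  obtain ⟨q, hq⟩ := hXCOV M x
  obtain ⟨θ, hθ⟩ := hXTHE M
  obtain ⟨hIXp, -, -, hrho, hsurj⟩ := hXIDL
  have hxp : (M.P x).IsPrime := (hPSB 9).1 _
  have hgenP : PI (M.emb (genericPoint M.X)) = IX := M.gen
  have hmem : ∀ A : MvPolynomial (Fin 10) ℂ, A ∈ IX ↔ rho A = 0 := fun A => Iff.rfl
  have hqI : ∀ d, Qc q ^ d ∉ PI (M.emb (genericPoint M.X)) := by
    intro d
    rw [hgenP, hmem, map_pow]
    exact pow_ne_zero d (rho_Qc_ne q)
  have hqx : ∀ d, Qc q ^ d ∉ PI (M.emb x) := fun d h => hq (hxp.mem_of_pow_mem d h)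
  rw [isIntegrallyClosed_iff M.X.functionField]
  intro f hf
  have hS : ∀ r : M.X.presheaf.stalk x, ∃ b : M.X.functionField, UnitAt x b ∧
      TT (rho (Qc q)) (θ b) ∧ TT (rho (Qc q)) (θ (b * algebraMap _ M.X.functionField r)) := by
    intro r
    obtain ⟨d, A, B, hA, hB, hBx, hr⟩ := hRGEN M.V x (algebraMap _ M.X.functionField r) ⟨r, rfl⟩
    obtain ⟨b, hb⟩ := (hRATA M.X 9 M.emb).1 d B (Qc q ^ d) hB (Qc_pow_mem q d) (hqI d)
    obtain ⟨a, ha⟩ := (hRATA M.X 9 M.emb).1 d A (Qc q ^ d) hA (Qc_pow_mem q d) (hqI d)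
    have hab : b * algebraMap _ M.X.functionField r = a := by
      refine ((hRATA M.X 9 M.emb).2.1 _ _ _ _ _ _
        ((hRATB M.X 9 M.emb).1 _ _ _ _ _ _ hb hr).1 ha).2 ?_
      have e1 : B * A * Qc q ^ d - A * (Qc q ^ d * B) = 0 := by ring
      rw [e1]
      exact Ideal.zero_mem _
    refine ⟨b, ((hRLOC M.X 9 M.emb x _ _ _ hb (hqx d)).2).2 hBx, ⟨d, rho B, ?_⟩, ⟨d, rho A, ?_⟩⟩
    · have := hθ _ _ _ hb
      rwa [map_pow, map_pow] at this
    · rw [hab]
      have := hθ _ _ _ ha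
      rwa [map_pow, map_pow] at this
  obtain ⟨b, hbU, -, N, G, hG⟩ := key θ (rho (Qc q)) (fun b => UnitAt x b)
    ⟨1, isUnit_one, map_one _⟩
    (fun a b ⟨s, hs1, hs2⟩ ⟨t, ht1, ht2⟩ => ⟨s * t, hs1.mul ht1, by rw [map_mul, hs2, ht2]⟩) hS f hf
  obtain ⟨d, A, B, hA, hB, hBx, hr⟩ := hRGEN M.V (genericPoint M.X) (b * f) (regAt_generic _)
  have hBI : rho B ≠ 0 := by
    intro h0
    apply hBx
    change B ∈ PI (M.emb (genericPoint M.X))
    rw [hgenP, hmem]
    exact h0
  have hGA : G * rho B = rho (A * Qc q ^ N) := by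
    apply IsFractionRing.injective (MvPolynomial (Fin 4) ℂ)
      (FractionRing (MvPolynomial (Fin 4) ℂ))
    have h1 := hθ _ _ _ hr
    have e2 : rho (A * Qc q ^ N) = rho A * rho (Qc q) ^ N := by rw [map_mul, map_pow]
    rw [e2, map_mul _ G, map_mul _ (rho A), map_pow _ (rho (Qc q)), ← hG, ← h1]
    ring
  have hGw : IsWeightedHomogeneous wts G (2 * N) := by
    refine wh_of_mul hBI (hrho d B hB) ?_
    rw [hGA, ← mul_add]
    have h1 := IsHomogeneous.mul (show A.IsHomogeneous d from hA)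
      (show (Qc q ^ N).IsHomogeneous N from Qc_pow_mem q N)
    have h2 : d + N = N + d := add_comm _ _
    rw [h2] at h1
    exact hrho _ _ h1
  obtain ⟨H, hH, hHG⟩ := hsurj N G hGw
  obtain ⟨h, hh⟩ := (hRATA M.X 9 M.emb).1 N H (Qc q ^ N) hH (Qc_pow_mem q N) (hqI N)
  have hbf : b * f = h := by
    refine ((hRATA M.X 9 M.emb).2.1 _ _ _ _ _ _ hr hh).2 ?_
    rw [hgenP, hmem, map_sub, ← hGA, map_mul, hHG, sub_self]
  obtain ⟨s, hs⟩ := (hRLOC M.X 9 M.emb x _ _ _ hh (hqx N)).1
  obtain ⟨u, hu, hub⟩ := hbU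
  obtain ⟨u', rfl⟩ := hu
  refine ⟨((u'⁻¹ : (M.X.presheaf.stalk x)ˣ) : M.X.presheaf.stalk x) * s, ?_⟩
  rw [map_mul, hs, ← hbf, ← hub, ← mul_assoc, ← map_mul, Units.inv_mul, map_one, one_mul]

end GMC
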