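import Pool.Agent.H65.GMC.XNOR

/-!
Modules XSNG and XDEX: the singular point and the prime divisor `x_0 = 0`.
-/

open AlgebraicGeometry CategoryTheory FCB MvPolynomial
open Pool.Agent.H22.GMC (Coord)

namespace GMC

namespace XSNG

/-- the exponent of the dehomogenised monomial -/
noncomputable def ex (m : Fin 4 →₀ ℕ) : Fin 3 →₀ ℕ :=
  Finsupp.single 0 (m 0) + Finsupp.single 1 (m 2) + Finsupp.single 2 (m 3)

theorem ex0 (m : Fin 4 →₀ ℕ) : ex m 0 = m 0 := by
  simp [ex, Finsupp.single_apply]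

theorem ex1 (m : Fin 4 →₀ ℕ) : ex m 1 = m 2 := by
  simp [ex, Finsupp.single_apply]

theorem ex2 (m : Fin 4 →₀ ℕ) : ex m 2 = m 3 := by
  simp [ex, Finsupp.single_apply]

theorem wt_eq (m : Fin 4 →₀ ℕ) : Finsupp.weight wts m = m 0 + m 1 + m 2 + 2 * m 3 := by
  rw [Finsupp.weight_apply, Finsupp.sum_fintype _ _ (fun i => by simp)]
  simp only [Fin.sum_univ_four, smul_eq_mul]
  have h0 : wts 0 = 1 := rfl
  have h1 : wts 1 = 1 := rfl
  have h2 : wts 2 = 1 := rfl
  have h3 : wts 3 = 2 := rfl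
  rw [h0, h1, h2, h3]
  ring

theorem ex_inj {N : ℕ} {m m' : Fin 4 →₀ ℕ} (h : Finsupp.weight wts m = N)
    (h' : Finsupp.weight wts m' = N) (he : ex m = ex m') : m = m' := by
  have e0 := DFunLike.congr_fun he 0
  have e1 := DFunLike.congr_fun he 1
  have e2 := DFunLike.congr_fun he 2
  rw [ex0, ex0] at e0
  rw [ex1, ex1] at e1
  rw [ex2, ex2] at e2
  rw [wt_eq] at h h'
  have h1 : m 1 = m' 1 := by omega
  ext i
  fin_cases i
  · exact e0
  · exact h1
  · exact e1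
  · exact e2

theorem dh_mono (m : Fin 4 →₀ ℕ) (c : ℂ) : aeval (hc 1) (monomial m c) = monomial (ex m) c := by
  rw [aeval_monomial, Finsupp.prod_fintype _ _ (fun i => pow_zero _), Fin.prod_univ_four]
  have h0 : hc 1 0 = X 0 := rfl
  have h1 : hc 1 1 = 1 := rfl
  have h2 : hc 1 2 = X 1 := rfl
  have h3 : hc 1 3 = X 2 := rfl
  rw [h0, h1, h2, h3, one_pow, mul_one, ex, X_pow_eq_monomial, X_pow_eq_monomial,
    X_pow_eq_monomial, monomial_mul, monomial_mul, mul_one, mul_one]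
  change C c * _ = _
  rw [C_mul_monomial, mul_one]

/-- divisibility by `x_0` -/
theorem dvd_of_dh {N : ℕ} {r : MvPolynomial (Fin 4) ℂ} (hr : IsWeightedHomogeneous wts r N)
    (h : X 0 ∣ aeval (hc 1) r) : X 0 ∣ r := by
  classical
  have key : ∀ m ∈ r.support, 1 ≤ m 0 := by
    intro m hm
    by_contra h0
    have hm0 : m 0 = 0 := by omega
    have h1 : coeff (ex m) (aeval (hc 1) r) = coeff m r := by
      conv_lhs => rw [r.as_sum, map_sum, coeff_sum]
      rw [Finset.sum_eq_single m]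
      · rw [dh_mono, coeff_monomial, if_pos rfl]
      · intro m' hm' hne
        rw [dh_mono, coeff_monomial, if_neg]
        intro he
        exact hne (ex_inj (hr (mem_support_iff.1 hm')) (hr (mem_support_iff.1 hm)) he)
      · intro hne
        exact absurd hm hne
    obtain ⟨g, hg⟩ := h
    rw [hg, mul_comm, coeff_mul_X', if_neg] at h1
    · exact mem_support_iff.1 hm h1.symm
    · rw [Finsupp.mem_support_iff, not_not, ex0, hm0]
  rw [r.as_sum]
  refine Finset.dvd_sum fun m hm => ?_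
  have h1 : m = Finsupp.single 0 1 + (m - Finsupp.single 0 1) := by
    rw [add_tsub_cancel_of_le]
    rw [Finsupp.single_le_iff]
    exact key m hm
  refine ⟨monomial (m - Finsupp.single 0 1) (coeff m r), ?_⟩
  rw [X, monomial_mul, one_mul, ← h1]

theorem rho_Qc (i : Fin 3) : rho (Qc i.castSucc) = X i.castSucc ^ 2 := by
  have h1 : ∀ k : Fin 3, rho (Q (some (k, k))) = X k.castSucc ^ 2 := by
    intro k
    rw [XNOR.rho_Q, sq]
    rfl
  fin_cases i
  · exact h1 0
  · exact h1 1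
  · exact h1 2

theorem dh_Qc1 : dh 2 (Qc 1) = X 1 ^ 2 := by
  have h1 : rho (Qc 1) = X 1 ^ 2 := rho_Qc 1
  rw [dh, AlgHom.comp_apply, h1, map_pow, aeval_X]
  rfl

theorem dh_Qc0 (i : Fin 3) (hi : i ≠ 0) : dh i (Qc 0) = X 0 ^ 2 := by
  have h1 : rho (Qc 0) = X 0 ^ 2 := rho_Qc 0
  rw [dh, AlgHom.comp_apply, h1, map_pow, aeval_X]
  fin_cases i
  · exact absurd rfl hi
  · rfl
  · rfl

theorem prime_X0 : (Ideal.span {(X 0 : MvPolynomial (Fin 3) ℂ)}).IsPrime := by
  rw [Ideal.span_singleton_prime (X_ne_zero 0)]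
  exact X_prime

end XSNG

open XSNG in
theorem xsng_thm (hPSB : S_PSB) (hVPT : S_VPT) (hXIDL : S_XIDL) (hXIEX : S_XIEX) (hXPDH : S_XPDH)
    (hXPRE : S_XPRE) : S_XSNG := by
  intro M x h0 h1 h2
  obtain ⟨ξ, hξ⟩ := (hXIEX M).1
  obtain ⟨hIXp, -, -, hrho, hsurj⟩ := hXIDL
  obtain ⟨y, hy1, hy2⟩ := hXPRE M ξ hξ 1 _ prime_X0
  have hgenP : M.P (genericPoint M.X) = IX := M.gen
  have hmem : ∀ A : MvPolynomial (Fin 10) ℂ, A ∈ IX ↔ rho A = 0 := fun A => Iff.rfl
  have hxp : (M.P x).IsPrime := (hPSB 9).1 _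
  have hspe : ∀ a b : M.X, a ⤳ b ↔ M.P a ≤ M.P b := (hVPT M.V).1
  have hIx : IX ≤ M.P x := by
    rw [← hgenP, ← hspe]
    exact (genericPoint_spec M.X).specializes trivial
  have hyx : M.P y ≤ M.P x := by
    intro A hA
    rw [show M.P x = PI (M.emb x) from rfl, (hPSB 9).2.1 (M.emb x) A]
    intro d
    have hAd : homogeneousComponent d A ∈ M.P y := ((hPSB 9).2.1 (M.emb y) A).1 hA d
    have hgr : homogeneousComponent d A ∈ grd 9 d := homogeneousComponent_isHomogeneous d A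
    generalize homogeneousComponent d A = B at hAd hgr
    have hdh := (hXPDH M ξ hξ 1 y _ hy1 hy2 d B hgr).1 hAd
    rw [Ideal.mem_span_singleton] at hdh
    obtain ⟨G, hG⟩ := dvd_of_dh (hrho d B hgr) hdh
    by_cases hd : d = 0
    · subst hd
      apply hIx
      rw [hmem]
      have hw := hrho 0 B hgr
      have hB : rho B = C (coeff 0 (rho B)) := by
        ext m
        rw [coeff_C]
        split_ifs with hm
        · rw [hm]
        · by_contra hne
          have h3 := hw hne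
          rw [wt_eq] at h3
          apply hm
          ext i
          fin_cases i
          · change 0 = m 0; omega
          · change 0 = m 1; omega
          · change 0 = m 2; omega
          · change 0 = m 3; omega
      have h3 := congrArg (aeval (fun _ : Fin 4 => (0 : ℂ))) hG
      rw [hB, map_mul, aeval_X, zero_mul] at h3
      rw [hB]
      have h4 : (aeval (fun _ : Fin 4 => (0 : ℂ))) (C (coeff 0 (rho B))) = coeff 0 (rho B) := by
        rw [aeval_C]; rfl
      rw [h4] at h3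
      rw [h3, C_0]
    · have hGw : IsWeightedHomogeneous wts G (2 * d - 1) := by
        refine XNOR.wh_of_mul (X_ne_zero 0) (isWeightedHomogeneous_X ℂ wts 0) ?_
        have e1 : 2 * d - 1 + wts 0 = 2 * d := by
          have : wts 0 = 1 := rfl
          omega
        rw [e1, mul_comm, ← hG]
        exact hrho d B hgr
      have hGG : IsWeightedHomogeneous wts (G ^ 2) (2 * (2 * d - 1)) := by
        have := hGw.pow 2
        exact this
      obtain ⟨H, -, hH⟩ := hsurj _ _ hGG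
      have hB2 : B ^ 2 - Qc 0 * H ∈ M.P x := by
        apply hIx
        rw [hmem, map_sub, map_pow, map_mul, hH, hG]
        have h3 : rho (Qc 0) = X 0 ^ 2 := rho_Qc 0
        rw [h3]
        ring
      have hB3 : B ^ 2 ∈ M.P x := by
        have := Ideal.add_mem _ hB2 (Ideal.mul_mem_right H _ h0)
        rwa [sub_add_cancel] at this
      exact hxp.mem_of_pow_mem 2 hB3
  have hlt1 : x < y := by
    refine lt_of_le_not_ge (show x ≤ y from (hspe y x).2 hyx) ?_
    intro he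
    exact hy1 ((hspe x y).1 he h1)
  have hlt2 : y < genericPoint M.X := by
    refine lt_of_le_not_ge (show y ≤ genericPoint M.X from
      (genericPoint_spec M.X).specializes trivial) ?_
    intro he
    have h3 : dh 1 (Qc 0) ∈ Ideal.span {(X 0 : MvPolynomial (Fin 3) ℂ)} := by
      rw [dh_Qc0 1 (by decide), Ideal.mem_span_singleton]
      exact Dvd.intro_left _ rfl
    have h4 := (hXPDH M ξ hξ 1 y _ hy1 hy2 1 (Qc 0) (XNOR.Qc_mem 0)).2 h3
    have h5 := (hspe y _).1 he h4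
    rw [hgenP, hmem] at h5
    exact XNOR.rho_Qc_ne 0 h5
  intro hco
  have e1 := Order.coheight_add_one_le hlt1
  have e2 := Order.coheight_add_one_le hlt2
  rw [hco] at e1
  have e3 : (1 : ℕ∞) ≤ Order.coheight y := le_trans le_add_self e2
  have e4 : (1 : ℕ∞) + 1 ≤ 1 := le_trans (add_le_add_left e3 1) e1
  exact absurd e4 (by norm_num)

open XSNG in
theorem xdex_thm (hVPT : S_VPT) (hXIEX : S_XIEX) (hXPDH : S_XPDH) (hXPRI : S_XPRI)
    (hXPRE : S_XPRE) (hXSPE : S_XSPE) (hXSNG : S_XSNG) : S_XDEX := by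
  intro M
  obtain ⟨ξ, hξ⟩ := (hXIEX M).1
  have hp0 := prime_X0
  obtain ⟨y, hy1, hy2⟩ := hXPRE M ξ hξ 1 _ prime_X0
  have hprime : Prime (X 0 : MvPolynomial (Fin 3) ℂ) := X_prime
  have hspe : ∀ a b : M.X, a ⤳ b ↔ M.P a ≤ M.P b := (hVPT M.V).1
  -- the prime ideal of a point is unique
  have huniq : ∀ (i : Fin 3) (z : M.X) (p q : Ideal (MvPolynomial (Fin 3) ℂ)),
      IsPr M.str (xi ξ i) z p → IsPr M.str (xi ξ i) z q → p = q := by
    intro i z p q hp hq
    ext F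
    rw [hp F, hq F]
  have hht : (Ideal.span {(X 0 : MvPolynomial (Fin 3) ℂ)}).height = 1 :=
    Ideal.height_span_singleton_eq_one_of_mem_nonZeroDivisors
      (mem_nonZeroDivisors_of_ne_zero (X_ne_zero 0)) hprime.not_isUnit
  have hco : Order.coheight y = 1 := by
    obtain ⟨p, hp1, hp2, hp3⟩ := hXPRI M ξ hξ 1 y hy1
    rw [← hp3, huniq 1 y p _ hp2 hy2, hht]
  have hX' : ∀ i : Fin 3, i ≠ 0 → (X i : MvPolynomial (Fin 3) ℂ) ∉
      Ideal.span {(X 0 : MvPolynomial (Fin 3) ℂ)} := by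
    intro i hi hmem
    rw [Ideal.mem_span_singleton] at hmem
    obtain ⟨g, hg⟩ := hmem
    have h1 := congrArg (aeval (fun k : Fin 3 => if k = 0 then (0 : ℂ) else 1)) hg
    rw [map_mul, aeval_X, aeval_X, if_neg hi, if_pos rfl, zero_mul] at h1
    exact one_ne_zero h1
  have hX : ∀ i : Fin 3, i ≠ 0 → (X i : MvPolynomial (Fin 3) ℂ) ^ 2 ∉
      Ideal.span {(X 0 : MvPolynomial (Fin 3) ℂ)} := fun i hi hmem =>
    hX' i hi (hp0.mem_of_pow_mem 2 hmem)
  have hX0 : (X 0 : MvPolynomial (Fin 3) ℂ) ^ 2 ∈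
      Ideal.span {(X 0 : MvPolynomial (Fin 3) ℂ)} := by
    rw [Ideal.mem_span_singleton]
    exact Dvd.intro_left _ rfl
  -- prime divisors in the chart `i` contained in `x_0 = 0`
  have hchart : ∀ (i : Fin 3), i ≠ 0 → ∀ p : M.X, Order.coheight p = 1 → Qc 0 ∈ M.P p →
      Qc (ch i) ∉ M.P p → IsPr M.str (xi ξ i) p (Ideal.span {X 0}) := by
    intro i hi p hpc hp0' hpi
    obtain ⟨P, hP1, hP2, hP3⟩ := hXPRI M ξ hξ i p hpi
    have h1 := (hXPDH M ξ hξ i p P hpi hP2 1 (Qc 0) (XNOR.Qc_mem 0)).1 hp0'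
    rw [dh_Qc0 i hi] at h1
    have h2 : (X 0 : MvPolynomial (Fin 3) ℂ) ∈ P := hP1.mem_of_pow_mem 2 h1
    have h3 : Ideal.span {(X 0 : MvPolynomial (Fin 3) ℂ)} ≤ P := by
      rw [Ideal.span_le]
      intro a ha
      rw [Set.mem_singleton_iff] at ha
      rw [ha]
      exact h2
    have h4 : Ideal.span {(X 0 : MvPolynomial (Fin 3) ℂ)} = P := by
      by_contra hne
      have h5 := Ideal.height_add_one_le_of_lt_of_isPrime (lt_of_le_of_ne h3 hne)
      rw [hht, hP3, hpc] at h5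
      exact absurd h5 (by norm_num)
    rw [h4]
    exact hP2
  refine ⟨⟨y, hco⟩, ?_, hy1, ?_, ?_, ?_⟩
  · refine (hXPDH M ξ hξ 1 y _ hy1 hy2 1 (Qc 0) (XNOR.Qc_mem 0)).2 ?_
    rw [dh_Qc0 1 (by decide)]
    exact hX0
  · intro hmem
    have h1 := (hXPDH M ξ hξ 1 y _ hy1 hy2 1 (Qc 2) (XNOR.Qc_mem 2)).1 hmem
    have h2 : dh 1 (Qc 2) = X 1 ^ 2 := by
      have h3 : rho (Qc 2) = X 2 ^ 2 := rho_Qc 2
      rw [dh, AlgHom.comp_apply, h3, map_pow, aeval_X]
      rfl
    rw [h2] at h1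
    exact hX 1 (by decide) h1
  · intro hmem
    have h1 := (hXPDH M ξ hξ 1 y _ hy1 hy2 1 (Qc 3) (XNOR.Qc_mem 3)).1 hmem
    have h2 : dh 1 (Qc 3) = X 2 := by
      have h3 : rho (Qc 3) = X 3 := XNOR.rho_Q none
      rw [dh, AlgHom.comp_apply, h3, aeval_X]
      rfl
    rw [h2] at h1
    exact hX' 2 (by decide) h1
  · intro p hp
    have hQ1 : Qc 1 ∉ M.P p.1 := by
      intro h1
      have h2 : Qc 2 ∉ M.P p.1 := fun h2 => hXSNG M p.1 hp h1 h2 p.2
      have h3 := hchart 2 (by decide) p.1 p.2 hp h2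
      have h4 := (hXPDH M ξ hξ 2 p.1 _ h2 h3 1 (Qc 1) (XNOR.Qc_mem 1)).1 h1
      rw [dh_Qc1] at h4
      exact hX 1 (by decide) h4
    have h3 := hchart 1 (by decide) p.1 p.2 hp hQ1
    have h4 : p.1 ⤳ y := (hXSPE M ξ hξ 1 p.1 y _ _ hQ1 hy1 h3 hy2).2 le_rfl
    have h5 : y ⤳ p.1 := (hXSPE M ξ hξ 1 y p.1 _ _ hy1 hQ1 hy2 h3).2 le_rfl
    apply Subtype.ext
    exact (hVPT M.V).2.2.1 _ _ (le_antisymm ((hspe _ _).1 h4) ((hspe _ _).1 h5))

end GMC
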